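import Pool.Agent.Q20.SI.Stm3

/-!
# Project SI: job RAM (large extensions are ramified at given primes)
-/

set_option autoImplicit false

namespace Pool.Agent.Q277.SI

open NumberField IsDedekindDomain Pool.Agent.Q20.RS Pool.Agent.Q20.SI

theorem exists_above {F M : Type} [Field F] [NumberField F] [Field M] [NumberField M] [Algebra F M]
    (v : HeightOneSpectrum (𝓞 F)) : ∃ w : HeightOneSpectrum (𝓞 M), w.under (𝓞 F) = v := by
  obtain ⟨Q, hQ, hQ2⟩ := Ideal.exists_maximal_ideal_liesOver_of_isIntegral (S := 𝓞 M) v.asIdeal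
  have hov : Q.under (𝓞 F) = v.asIdeal := hQ2.over.symm
  refine ⟨⟨Q, hQ.isPrime, fun h => ?_⟩, HeightOneSpectrum.ext hov⟩
  rw [h, Ideal.under_bot] at hov
  exact v.ne_bot hov.symm

theorem map_le_sq {A B : Type} [CommRing A] [IsDedekindDomain A] [CommRing B] [IsDedekindDomain B]
    (f : A →+* B) (p : Ideal A) (P : Ideal B) (hP : Prime P) (hc : P.comap f = p) (x : A)
    (hx : x ∈ p) (hx2 : x ∉ p ^ 2) (h5 : f x ∈ P ^ 2) : p.map f ≤ P ^ 2 := by
  have h6 : p ∣ Ideal.span {x} := by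
    rw [Ideal.dvd_span_singleton]
    exact hx
  obtain ⟨C, hC⟩ := h6
  have hpC : ¬ p ∣ C := by
    rintro ⟨D, rfl⟩
    apply hx2
    have h7 : p ^ 2 ∣ Ideal.span {x} := ⟨D, by rw [hC, ← mul_assoc, ← pow_two]⟩
    rwa [Ideal.dvd_span_singleton] at h7
  have h8 : P ^ 2 ∣ p.map f * C.map f := by
    rw [← Ideal.map_mul, ← hC, Ideal.map_span, Set.image_singleton, Ideal.dvd_span_singleton]
    exact h5
  have h9 : ¬ P ∣ C.map f := by
    intro h
    rw [Ideal.dvd_iff_le, Ideal.map_le_iff_le_comap, hc, ← Ideal.dvd_iff_le] at h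
    exact hpC h
  exact Ideal.dvd_iff_le.1 (hP.pow_dvd_of_dvd_mul_right 2 h9 h8)

theorem ramified_of_sqrt {F M : Type} [Field F] [NumberField F] [Field M] [NumberField M] [Algebra F M]
    (p : HeightOneSpectrum (𝓞 F)) (x : 𝓞 F) (hx : x ∈ p.asIdeal) (hx2 : x ∉ p.asIdeal ^ 2)
    (y : M) (hy : y ^ 2 = algebraMap F M x) : ¬ Unrm M p := by
  intro hU
  obtain ⟨P, hP⟩ := exists_above (M := M) p
  apply hU P hP
  have hPc : P.asIdeal.comap (algebraMap (𝓞 F) (𝓞 M)) = p.asIdeal := congrArg HeightOneSpectrum.asIdeal hP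
  have hyi : IsIntegral ℤ y := by
    have h1 : IsIntegral ℤ (y ^ 2) := by
      rw [hy]
      exact (RingOfIntegers.isIntegral_coe x).algebraMap
    exact IsIntegral.of_pow (by norm_num) h1
  have hex : ∃ y' : 𝓞 M, y' ^ 2 = algebraMap (𝓞 F) (𝓞 M) x := by
    refine ⟨⟨y, hyi⟩, ?_⟩
    apply RingOfIntegers.ext
    exact hy
  obtain ⟨y', h2⟩ := hex
  have h3 : algebraMap (𝓞 F) (𝓞 M) x ∈ P.asIdeal := by
    rw [← Ideal.mem_comap, hPc]
    exact hx
  have h4 : y' ∈ P.asIdeal := by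
    rw [← h2] at h3
    exact P.isPrime.mem_of_pow_mem 2 h3
  have h5 : algebraMap (𝓞 F) (𝓞 M) x ∈ P.asIdeal ^ 2 := by
    rw [← h2]
    exact Ideal.pow_mem_pow h4 2
  exact map_le_sq _ _ _ P.prime hPc x hx hx2 h5

theorem ram : S_RAM := by
  classical
  intro K _ _ S
  have h1 : ∀ p : HeightOneSpectrum (𝓞 K), ∃ x : 𝓞 K, x ∈ p.asIdeal ∧ x ∉ p.asIdeal ^ 2 := by
    intro p
    obtain ⟨x, hx, hx2⟩ := p.asIdeal.exists_mem_pow_notMem_pow_succ p.ne_bot p.isPrime.ne_top 1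
    rw [pow_one] at hx
    exact ⟨x, hx, hx2⟩
  choose x hx hx2 using h1
  have h2 : ∀ p : HeightOneSpectrum (𝓞 K), ∃ y : AlgebraicClosure K,
      y ^ 2 = algebraMap K (AlgebraicClosure K) (x p) := fun p =>
    IsAlgClosed.exists_pow_nat_eq _ (by norm_num)
  choose y hy using h2
  refine ⟨IntermediateField.adjoin K ((S.image y : Finset (AlgebraicClosure K)) : Set (AlgebraicClosure K)), ?_, ?_⟩
  · exact IntermediateField.finiteDimensional_adjoin fun z _ => (Algebra.IsIntegral.isIntegral z)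
  · intro N _ hN p hp
    have hyN : y p ∈ N := by
      apply hN
      apply IntermediateField.subset_adjoin
      exact Finset.mem_coe.2 (Finset.mem_image_of_mem y hp)
    refine ramified_of_sqrt p (x p) (hx p) (hx2 p) ⟨y p, hyN⟩ ?_
    apply Subtype.ext
    exact hy p

end Pool.Agent.Q277.SI
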